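import Pool.Agent.P.MP_77a832_co.EL.Fin
import Pool.Agent.P.MP_77a832_co.EL.All

/-! The number of `k`-sets of `n` points in the plane is at most `C n k ^ ε` for every `ε > 0`. -/

set_option autoImplicit false

namespace Pool.Agent.Results.MP_77a832_co.ExponentZero

open Pool.Agent.P.MP_77a832_co

theorem result : ∀ ε : ℝ, 0 < ε → ∃ C : ℝ,
    ∀ (P : Finset (EuclideanSpace ℝ (Fin 2))) (k : ℕ), 1 ≤ k →
      (Set.ncard {S : Finset (EuclideanSpace ℝ (Fin 2)) | S.card = k ∧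
        ∃ (v : EuclideanSpace ℝ (Fin 2)) (d : ℝ), v ≠ 0 ∧
          (S : Set (EuclideanSpace ℝ (Fin 2))) =
            (P : Set (EuclideanSpace ℝ (Fin 2))) ∩ {z | inner ℝ v z < d}} : ℝ) ≤
        C * P.card * (k : ℝ) ^ ε :=
  EL.final_of EL.ub

end Pool.Agent.Results.MP_77a832_co.ExponentZero
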