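import Mathlib
import Pool.Agent.P.MP_77a832_co.Ps.Sub

namespace Pool.Agent.Results.MP_77a832_co.PseudoPoly

open Pool.Agent.P.MP_77a832_co.Ps

theorem result : ∀ n k : ℕ, 1 ≤ k → 2 * k ≤ n → ∃ w : List ℕ, (∀ i ∈ w, 1 ≤ i ∧ i < n) ∧
    w.length = n.choose 2 ∧
    (∀ a < n, (w.map fun i => Equiv.swap (i - 1) i).prod a = n - 1 - a) ∧
    (n : ℝ) * (k : ℝ) ^ (Real.log 2 / Real.log 40) / 4096 ≤ w.count k := by
  intro n k hk hn
  obtain ⟨m, L, h, h1, h2⟩ := ch_all hk hn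
  obtain ⟨w, w1, w2, w3, w4⟩ := ext h
  refine ⟨w, w1, w2, w3, ?_⟩
  have e : (k : ℝ) ^ (Real.log 2 / Real.log 40) ≤ 2 ^ (L + 3) := by
    calc _ ≤ ((40 : ℝ) ^ (L + 3)) ^ Real.logb 40 2 :=
          Real.rpow_le_rpow (Nat.cast_nonneg k) (by exact_mod_cast h1)
            (Real.logb_nonneg (by norm_num) (by norm_num))
      _ = _ := by
          rw [← Real.rpow_pow_comm (by norm_num),
            Real.rpow_logb (by norm_num) (by norm_num) (by norm_num)]
  have e1 : (n : ℝ) * 2 ^ L ≤ 512 * m := by exact_mod_cast h2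
  have e2 : (m : ℝ) ≤ w.count k := by exact_mod_cast w4
  have := mul_le_mul_of_nonneg_left e (Nat.cast_nonneg (α := ℝ) n)
  rw [pow_add] at this
  linarith

end Pool.Agent.Results.MP_77a832_co.PseudoPoly
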