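import Mathlib
import Pool.Agent.P.MP_77a832_co.Lift

set_option autoImplicit false

open Finset

namespace Pool.Agent.Results.MP_77a832_co.TwoThirdsAllDim

open Pool.Agent.P.MP_77a832_co

/-- `S` is a `k`-set of the point set `P` in `ℝ^d`: it has `k` points and it is the intersection
of `P` with an open halfspace `{x | ⟪v, x⟫ < c}`, `v ≠ 0`. -/
def IsKSet {d : ℕ} (P : Finset (EuclideanSpace ℝ (Fin d))) (k : ℕ)
    (S : Finset (EuclideanSpace ℝ (Fin d))) : Prop :=
  S.card = k ∧ ∃ (v : EuclideanSpace ℝ (Fin d)) (c : ℝ), v ≠ 0 ∧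
    (S : Set (EuclideanSpace ℝ (Fin d))) = (P : Set (EuclideanSpace ℝ (Fin d))) ∩
      {x | inner ℝ v x < c}

/-- the number of `k`-sets of `P` -/
noncomputable def numKSets {d : ℕ} (P : Finset (EuclideanSpace ℝ (Fin d))) (k : ℕ) : ℕ :=
  Set.ncard {S | IsKSet P k S}

theorem result : ∀ d : ℕ, 2 ≤ d → ∃ k₀ : ℕ, ∀ n k : ℕ, k₀ ≤ k → 2 * k ≤ n →
    ∃ P : Finset (EuclideanSpace ℝ (Fin d)), P.card = n ∧
      (n : ℝ) * (k : ℝ) ^ (d - 2) * Real.exp (Real.log k ^ (2 / 3 : ℝ) / 9) ≤ numKSets P k := by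
  classical
  intro d hd
  obtain ⟨r, rfl⟩ : ∃ r, d = r + 1 + 1 := ⟨d - 2, by omega⟩
  obtain ⟨k0, hk0⟩ := manyD r
  refine ⟨k0, fun n k hk hn => ?_⟩
  obtain ⟨f, S, hy, hf⟩ := hk0 n k hk hn
  rw [show r + 1 + 1 - 2 = r by omega]
  let pt : S.ι → EuclideanSpace ℝ (Fin (r + 1 + 1)) := fun i =>
    WithLp.toLp 2 (Fin.cons (S.y i) (S.x i) : Fin (r + 1 + 1) → ℝ)
  have hpt : Function.Injective pt := by
    intro i i' h
    apply hy
    have := congrArg (fun p : EuclideanSpace ℝ (Fin (r + 1 + 1)) => p 0) h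
    simpa [pt] using this
  let φ : S.E → Finset (EuclideanSpace ℝ (Fin (r + 1 + 1))) := fun e =>
    (Finset.univ.filter fun i => 0 < S.al e + ∑ j, S.be e j * S.x i j - S.y i).image pt
  have hmem : ∀ e i, pt i ∈ φ e ↔ 0 < S.al e + ∑ j, S.be e j * S.x i j - S.y i := by
    intro e i
    simp only [φ, hpt.mem_finset_image, Finset.mem_filter, Finset.mem_univ, true_and]
  have hφ : Function.Injective φ := by
    intro e e' h
    refine S.hinj e e' fun i => ind_congr ?_
    rw [← hmem, ← hmem, h]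
  refine ⟨Finset.univ.image pt, by rw [Finset.card_image_of_injective _ hpt]; exact S.hn, ?_⟩
  refine hf.trans ?_
  have hsub : Set.range φ ⊆ {T | IsKSet (Finset.univ.image pt) k T} := by
    rintro _ ⟨e, rfl⟩
    refine ⟨?_, WithLp.toLp 2 (Fin.cons 1 (fun j => -S.be e j) : Fin (r + 1 + 1) → ℝ),
      S.al e, ?_, ?_⟩
    · rw [Finset.card_image_of_injective _ hpt]
      have h1 := S.hk e
      unfold ind at h1
      rw [Finset.sum_boole] at h1
      exact_mod_cast h1
    · intro h
      have := congrArg (fun p : EuclideanSpace ℝ (Fin (r + 1 + 1)) => p 0) h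
      simp at this
    · ext p
      have hin : ∀ i, inner ℝ (WithLp.toLp 2 (Fin.cons 1 (fun j => -S.be e j) :
          Fin (r + 1 + 1) → ℝ) : EuclideanSpace ℝ (Fin (r + 1 + 1))) (pt i) < S.al e ↔
          0 < S.al e + ∑ j, S.be e j * S.x i j - S.y i := by
        intro i
        simp only [pt, PiLp.inner_apply]
        rw [Fin.sum_univ_succ]
        simp only [Fin.cons_zero, Fin.cons_succ, RCLike.inner_apply, conj_trivial, mul_one,
          neg_mul, Finset.sum_neg_distrib, mul_comm (S.x i _)]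
        constructor <;> intro h <;> linarith
      constructor
      · intro hp
        obtain ⟨i, hi, rfl⟩ := Finset.mem_image.mp (Finset.mem_coe.mp hp)
        exact ⟨Finset.mem_coe.mpr (Finset.mem_image_of_mem _ (Finset.mem_univ i)),
          (hin i).2 (Finset.mem_filter.mp hi).2⟩
      · rintro ⟨hp, hlt⟩
        obtain ⟨i, -, rfl⟩ := Finset.mem_image.mp (Finset.mem_coe.mp hp)
        exact Finset.mem_coe.mpr ((hmem e i).2 ((hin i).1 hlt))
  have hfin : {T | IsKSet (Finset.univ.image pt) k T}.Finite := by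
    refine (Finset.finite_toSet (Finset.univ.image pt).powerset).subset ?_
    rintro T ⟨-, v, c, -, hT⟩
    rw [Finset.mem_coe, Finset.mem_powerset, ← Finset.coe_subset, hT]
    exact Set.inter_subset_left
  have h1 := Set.ncard_le_ncard hsub hfin
  rw [Set.ncard_range_of_injective hφ, Nat.card_eq_fintype_card, S.hf] at h1
  exact_mod_cast h1

end Pool.Agent.Results.MP_77a832_co.TwoThirdsAllDim
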